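import Pool.Agent.BEB.Stmts

/-!
# BEB, row ORT
-/

set_option autoImplicit false

namespace Pool.Agent.BEB.H42

open Set Filter Topology MeasureTheory
open scoped InnerProductSpace ENNReal
open Pool.Agent.BE01 Pool.Agent.BEB

theorem HB_sub {R : ℝ} : HB R ⊆ Metric.ball (0 : En 3) R := by
  intro x hx
  simpa using hx.1

theorem dom_HB {R : ℝ} (hR : 0 < R) : Dom (HB R) := by
  refine ⟨?_, Metric.isBounded_ball.subset HB_sub, ?_⟩
  · have h1 : HB R = {x : En 3 | ‖x‖ < R} ∩ {x : En 3 | 0 < x 2} := rfl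
    rw [h1]
    exact (isOpen_lt continuous_norm continuous_const).inter
      (isOpen_lt continuous_const (by fun_prop))
  · refine ⟨EuclideanSpace.single 2 (R / 2), ?_, ?_⟩
    · rw [PiLp.norm_single, Real.norm_of_nonneg (by positivity)]
      linarith
    · simp
      linarith

theorem measurableSet_HB {R : ℝ} (hR : 0 < R) : MeasurableSet (HB R) :=
  (dom_HB hR).1.measurableSet

instance finite_mu (R : ℝ) : IsFiniteMeasure (mu (HB R)) := by
  unfold mu
  refine ⟨?_⟩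
  rw [Measure.restrict_apply_univ]
  exact lt_of_le_of_lt (measure_mono HB_sub) measure_ball_lt_top

theorem coord_le (x : En 3) (i : Fin 3) : |x i| ≤ ‖x‖ := by
  simpa using PiLp.norm_apply_le x i

theorem integrable_ev (EVP : EvpStmt) {R : ℝ} (hR : 0 < R) (u : Lp ℝ 2 (mu (HB R))) (P : Pl) :
    Integrable (fun x => u x * ev P x) (mu (HB R)) := by
  obtain ⟨hsm, -, -, -, -, -, -, hbd⟩ := EVP
  obtain ⟨C, hC⟩ := hbd P R
  have h1 : Integrable (fun x => u x) (mu (HB R)) :=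
    (Lp.memLp u).integrable (by norm_num)
  refine h1.mul_bdd (c := C) (hsm P).continuous.aestronglyMeasurable ?_
  unfold mu
  rw [ae_restrict_iff' (measurableSet_HB hR)]
  refine Eventually.of_forall fun x hx => ?_
  rw [Real.norm_eq_abs]
  exact hC x hx.1.le

theorem ort (COF : CofStmt) (EVP : EvpStmt) (IBP : IbpStmt) (WEX : WexStmt) (ODP : OdpStmt) :
    OrtStmt := by
  intro R l u Q hR hu hQ
  have hEVP := EVP
  obtain ⟨hsm, -, hadd, hmul, hCc, hrho, hX, hbd⟩ := EVP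
  obtain ⟨Q0, hQ0⟩ := ODP.2.2.2.2.1 Q hQ
  set p : Pl := (rho - MvPolynomial.C (R ^ 2)) * Q with hp
  -- value of p
  have hval : ∀ x, ev p x = (‖x‖ ^ 2 - R ^ 2) * (x 2 * ev Q0 x) := by
    intro x
    have h1 : ev (rho - MvPolynomial.C (R ^ 2)) x = ‖x‖ ^ 2 - R ^ 2 := by
      have h2 : ev (rho - MvPolynomial.C (R ^ 2)) x = ev rho x - ev (MvPolynomial.C (R ^ 2)) x := by
        unfold ev
        rw [map_sub]
      rw [h2, hrho, hCc]
    rw [hp, hmul, h1, hQ0, hmul, hX]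
  obtain ⟨C, hC⟩ := hbd Q0 R
  obtain ⟨f, F, hfF, hf, hF⟩ := COF R (|C| * (R + R ^ 2)) (ev p) hR (hsm p) (by
    intro x hx
    have h1 : |ev Q0 x| ≤ |C| := (hC x hx.1.le).trans (le_abs_self C)
    have h2 : 0 ≤ R ^ 2 - ‖x‖ ^ 2 := by
      have := hx.1.le
      have h3 := norm_nonneg x
      nlinarith
    have h3 : 0 < x 2 := hx.2
    have h4 : x 2 ≤ R := (le_abs_self _).trans ((coord_le x 2).trans hx.1.le)
    have h5 : R ^ 2 - ‖x‖ ^ 2 ≤ R ^ 2 := by
      have := sq_nonneg ‖x‖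
      linarith
    have h6 : |ev p x| = (R ^ 2 - ‖x‖ ^ 2) * (x 2 * |ev Q0 x|) := by
      rw [hval, abs_mul, abs_mul, abs_of_pos h3, abs_sub_comm, abs_of_nonneg h2]
    have h0 := abs_nonneg C
    have h7 := abs_nonneg (ev Q0 x)
    have h8 : R * |C| ≤ |C| * (R + R ^ 2) := by
      have h9 := mul_nonneg h0 (sq_nonneg R)
      have h10 : |C| * (R + R ^ 2) = R * |C| + |C| * R ^ 2 := by ring
      rw [h10]
      linarith
    rw [h6]
    constructor
    · calc (R ^ 2 - ‖x‖ ^ 2) * (x 2 * |ev Q0 x|) ≤ (R ^ 2 - ‖x‖ ^ 2) * (R * |C|) := by gcongr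
        _ ≤ (R ^ 2 - ‖x‖ ^ 2) * (|C| * (R + R ^ 2)) := mul_le_mul_of_nonneg_left h8 h2
        _ = |C| * (R + R ^ 2) * (R ^ 2 - ‖x‖ ^ 2) := by ring
    · calc (R ^ 2 - ‖x‖ ^ 2) * (x 2 * |ev Q0 x|) ≤ R ^ 2 * (x 2 * |C|) := by gcongr
        _ ≤ |C| * (R + R ^ 2) * x 2 := by
          have h9 := mul_nonneg (mul_nonneg h0 hR.le) h3.le
          have h10 : |C| * (R + R ^ 2) * x 2 = |C| * R * x 2 + R ^ 2 * (x 2 * |C|) := by ring
          rw [h10]
          linarith)
  obtain ⟨G, hG, hw⟩ := hu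
  have hdom := dom_HB hR
  -- test with H10
  have hwex := WEX (HB R) f (l • u) G F hdom (by
    intro ψ hψ
    rw [hw ψ hψ, ← integral_const_mul]
    refine integral_congr_ae ?_
    filter_upwards [Lp.coeFn_smul l u] with x hx
    rw [hx]
    simp only [Pi.smul_apply, smul_eq_mul]
    ring) hfF
  have h1 : ∫ x, ⟪G x, F x⟫_ℝ ∂(mu (HB R)) = ∫ x, ⟪G x, gradient (ev p) x⟫_ℝ ∂(mu (HB R)) := by
    refine integral_congr_ae ?_
    filter_upwards [hF] with x hx
    rw [hx]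
  have h2 : ∫ x, (l • u : Lp ℝ 2 (mu (HB R))) x * f x ∂(mu (HB R)) =
      ∫ x, l * (u x * ev p x) ∂(mu (HB R)) := by
    refine integral_congr_ae ?_
    filter_upwards [Lp.coeFn_smul l u, hf] with x hx hx'
    rw [hx, hx']
    simp only [Pi.smul_apply, smul_eq_mul]
    ring
  have h3 := IBP (HB R) u G p hdom hG
  rw [h1, h3, h2] at hwex
  have h4 : (fun x => u x * ev (lap p + MvPolynomial.C l * p) x) =
      fun x => u x * ev (lap p) x + l * (u x * ev p x) := by
    funext x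
    rw [hadd, hmul, hCc]
    ring
  rw [h4, integral_add (integrable_ev hEVP hR u _) ((integrable_ev hEVP hR u _).const_mul l), ← hwex]
  ring

end Pool.Agent.BEB.H42
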